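import Pool.Agent.Run7.h240.CL.ConvZ
import Pool.Agent.W400.PC.PT

set_option autoImplicit false

open MeasureTheory Set

/-!
Site percolation on `Z^d`, `d ≥ 2`, at and above the critical point: the `d`-fold convolution of the
two-point function of a box is bounded from below, and every two vertices of a box of radius `n` are
connected inside the concentric box of radius `K n` with probability at least `c n ^ (-d (d - 1))`.

The main estimates are in the modules `Pool.Agent.Run7.h240.CL.*`.
-/

namespace Pool.Agent.Results.MP_e13933_pr.CriticalConvolution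

noncomputable section

/-- Vertices of `Z^d`. -/
abbrev V (d : ℕ) : Type := Fin d → ℤ

/-- The box of radius `N` around `z`. -/
def box {d : ℕ} (z : V d) (N : ℕ) : Set (V d) := {x | ∀ i, |x i - z i| ≤ N}

/-- The open subgraph inside the region `S`: two vertices at Euclidean distance one are joined if
both are open (`ω x = true`) and in `S`. -/
def openGraph {d : ℕ} (ω : V d → Bool) (S : Set (V d)) : SimpleGraph (V d) where
  Adj x y := ∑ i, |x i - y i| = 1 ∧ (x ∈ S ∧ ω x = true) ∧ (y ∈ S ∧ ω y = true)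
  symm := ⟨fun x y ⟨h1, h2, h3⟩ => ⟨by simpa only [abs_sub_comm] using h1, h3, h2⟩⟩
  loopless := ⟨fun x h => by simpa using h.1⟩

/-- The open cluster of `x` inside the region `S` (empty if `x` is closed). -/
def cluster {d : ℕ} (ω : V d → Bool) (S : Set (V d)) (x : V d) : Set (V d) :=
  {y | (ω x = true ∧ x ∈ S) ∧ (openGraph ω S).Reachable x y}

/-- Site percolation with parameter `p`: all vertices are open with probability `p`,
independently. -/
def P (d : ℕ) (p : unitInterval) : Measure (V d → Bool) :=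
  Measure.infinitePi (fun _ : V d =>
    ENNReal.ofReal (p : ℝ) • Measure.dirac true + ENNReal.ofReal (1 - (p : ℝ)) • Measure.dirac false)

/-- The percolation probability `θ_d(p)`. -/
def theta (d : ℕ) (p : unitInterval) : ℝ := (P d p).real {ω | (cluster ω univ 0).Infinite}

/-- The critical point `p_c(d)`, the supremum of the parameters with `θ_d(p) = 0`. -/
def pc (d : ℕ) : unitInterval :=
  ⟨sSup {t : ℝ | ∃ q : unitInterval, (q : ℝ) = t ∧ theta d q = 0}, by
    constructor
    · apply Real.sSup_nonneg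
      rintro x ⟨q, rfl, _⟩
      exact q.2.1
    · apply Real.sSup_le
      · rintro x ⟨q, rfl, _⟩
        exact q.2.2
      · exact zero_le_one⟩

/-! ### Comparison with the model of the modules -/

lemma nd_mem {d : ℕ} {ω : V d → Bool} {x y : V d} :
    (∀ c ∈ (Pool.Agent.Y990.CB.siteM d).nd x y, ω c = true) ↔ ω x = true ∧ ω y = true := by
  show (∀ c : V d, c ∈ ({x, y} : Finset (V d)) → ω c = true) ↔ _
  simp only [Finset.mem_insert, Finset.mem_singleton, forall_eq_or_imp, forall_eq]

open Pool.Agent.Y990.CB in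
lemma adj_iff {d : ℕ} (ω : V d → Bool) (S : Set (V d)) (x y : V d) :
    (openGraph ω S).Adj x y ↔ (G (siteM d) ω S).Adj x y := by
  show (∑ i, |x i - y i| = 1 ∧ (x ∈ S ∧ ω x = true) ∧ (y ∈ S ∧ ω y = true)) ↔
    (∑ i, |x i - y i| = 1 ∧ x ∈ S ∧ y ∈ S ∧ ∀ c ∈ (siteM d).nd x y, ω c = true)
  rw [nd_mem]
  tauto

open Pool.Agent.Y990.CB in
lemma graph_eq {d : ℕ} (ω : V d → Bool) (S : Set (V d)) :
    openGraph ω S = G (siteM d) ω S := by
  ext x y
  exact adj_iff ω S x y

open Pool.Agent.Y990.CB in
lemma cluster_sub {d : ℕ} (ω : V d → Bool) (S : Set (V d)) (x : V d) :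
    cluster ω S x ⊆ cl (siteM d) ω S x := by
  rintro y ⟨-, h⟩
  rw [graph_eq] at h
  exact h

open Pool.Agent.Y990.CB in
lemma infinite_iff {d : ℕ} (ω : V d → Bool) (x : V d) :
    (cluster ω univ x).Infinite ↔ ω ∈ Perc (siteM d) x := by
  constructor
  · intro h
    exact h.mono (cluster_sub ω univ x)
  · intro h
    have hx : ω x = true := by
      obtain ⟨y, hy, hyx⟩ := Set.Infinite.exists_notMem_finset h {x}
      have hyx' : y ≠ x := by simpa using hyx
      have hr : (G (siteM d) ω univ).Reachable x y := hy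
      obtain ⟨q⟩ := hr
      cases q with
      | nil => exact absurd rfl hyx'
      | cons hadj _ => exact (nd_mem.1 hadj.2.2.2).1
    refine Set.Infinite.mono ?_ h
    intro y hy
    refine ⟨⟨hx, mem_univ x⟩, ?_⟩
    rw [graph_eq]
    exact hy

open Pool.Agent.Y990.CB in
lemma P_eq (d : ℕ) (p : unitInterval) : P d p = mu (siteM d) p := rfl

open Pool.Agent.Y990.CB in
lemma theta_eq (d : ℕ) (p : unitInterval) : theta d p = th (siteM d) p := by
  unfold theta th
  rw [P_eq]
  congr 1
  ext ω
  exact infinite_iff ω 0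

open Pool.Agent.Y990.CB in
lemma pc_eq (d : ℕ) : pc d = Pool.Agent.Y990.CB.pc (siteM d) := by
  apply Subtype.ext
  show sSup {t : ℝ | ∃ q : unitInterval, (q : ℝ) = t ∧ theta d q = 0} =
    sSup {x : ℝ | ∃ q : unitInterval, (q : ℝ) = x ∧ th (siteM d) q = 0}
  simp only [theta_eq]

open Pool.Agent.Y990.CB in
lemma box_eq {d : ℕ} (z : V d) (N : ℕ) : box z N = Bo z N := rfl

/-- The event that `x` is open. -/
lemma open_prob (d : ℕ) (p : unitInterval) (x : V d) :
    (P d p).real {ω | ω x = true} = p := by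
  have h := Pool.Agent.W45.PC.pm_true (fun _ : V d => p) {x}
  have e : {ω : V d → Bool | ω x = true} = {ω | ∀ c ∈ ({x} : Finset (V d)), ω c = true} := by
    ext ω
    simp
  rw [Measure.real, e]
  have h' : P d p {ω | ∀ c ∈ ({x} : Finset (V d)), ω c = true} =
      ∏ c ∈ ({x} : Finset (V d)), ENNReal.ofReal ((p : unitInterval) : ℝ) := h
  rw [h', Finset.prod_singleton, ENNReal.toReal_ofReal p.2.1]

open Pool.Agent.Y990.CB in
/-- The event that `y` is in the cluster of `x`. -/
lemma mem_cluster_iff {d : ℕ} {ω : V d → Bool} {S : Set (V d)} {x y : V d} (hx : x ∈ S)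
    (hxy : x ≠ y) : y ∈ cluster ω S x ↔ ω ∈ Cn (siteM d) S x y := by
  constructor
  · intro h
    exact cluster_sub ω S x h
  · intro h
    have hr : (G (siteM d) ω S).Reachable x y := h
    have hx' : ω x = true := by
      obtain ⟨q⟩ := hr
      cases q with
      | nil => exact absurd rfl hxy
      | cons hadj _ => exact (nd_mem.1 hadj.2.2.2).1
    refine ⟨⟨hx', hx⟩, ?_⟩
    rw [graph_eq]
    exact hr

open Pool.Agent.Y990.CB in
lemma mem_cluster_self {d : ℕ} {ω : V d → Bool} {S : Set (V d)} {x : V d} (hx : x ∈ S) :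
    x ∈ cluster ω S x ↔ ω x = true :=
  ⟨fun h => h.1.1, fun h => ⟨⟨h, hx⟩, SimpleGraph.Reachable.refl _⟩⟩

open Pool.Agent.Y990.CB Pool.Agent.W783.PC in
lemma par_le {d : ℕ} {p q : unitInterval} (h : p ≤ q) {A : Set ((siteM d).ι → Bool)}
    (hA : Inc A) (hm : MeasurableSet A) :
    (mu (siteM d) p).real A ≤ (mu (siteM d) q).real A := by
  have h1 : mu (siteM d) p A ≤ mu (siteM d) q A :=
    Pool.Agent.W400.PC.s_mono (siteM d).ι (fun _ => p) (fun _ => q) _ (fun _ => h) hA hm
  exact ENNReal.toReal_mono (measure_ne_top _ _) h1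

open Pool.Agent.Y990.CB Pool.Agent.Y232.CB in
/-- Comparison of the two-point functions. -/
lemma two_point {d : ℕ} {p q : unitInterval} (h : p ≤ q) {S : Set (V d)} {x : V d} (hx : x ∈ S)
    (y : V d) : (p : ℝ) * con (siteM d) p S x y ≤ (P d q).real {ω | y ∈ cluster ω S x} := by
  by_cases hxy : x = y
  · subst hxy
    have e : {ω : V d → Bool | x ∈ cluster ω S x} = {ω | ω x = true} := by
      ext ω
      exact mem_cluster_self hx
    rw [e, open_prob, con_self, mul_one]
    exact_mod_cast h
  · have e : {ω : V d → Bool | y ∈ cluster ω S x} = Cn (siteM d) S x y := by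
      ext ω
      exact mem_cluster_iff hx hxy
    rw [e, P_eq]
    refine le_trans ?_ (par_le h (Cn_inc (siteM d) S x y) (Cn_meas (siteM d) S x y))
    have h1 : 0 ≤ con (siteM d) p S x y := con_nonneg _ _ _ _ _
    show (p : ℝ) * con (siteM d) p S x y ≤ con (siteM d) p S x y
    exact mul_le_of_le_one_left h1 p.2.2

lemma cluster_subset {d : ℕ} {ω : V d → Bool} {S : Set (V d)} {x y : V d}
    (h : y ∈ cluster ω S x) : y ∈ S := by
  obtain ⟨⟨-, hx⟩, ⟨q⟩⟩ := h
  induction q with
  | nil => exact hx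
  | cons hadj _ ih => exact ih hadj.2.2.1

/-- **The `d`-fold convolution of the two-point function, and connections in boxes, at and above the
critical point.**  For every `d ≥ 2` there is `c > 0` such that for all `p ≥ p_c` and `n ≥ 1`, with
`K = (4 d + 7) 2^d + 1`:

* for every vertex `z` of the box of radius `n` around `0`, the sum over all `x_1, …, x_d` with
  `x_1 + … + x_d = z` of the products of the probabilities that `0` and `x_i` are in one open cluster
  of the box of radius `K n` around `0` is at least `c`;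
* all vertices `x`, `y` of a box of radius `n` are in one open cluster of the concentric box of
  radius `K n` with probability at least `c / n ^ (d (d - 1))`. -/
theorem result (d : ℕ) (hd : 2 ≤ d) : ∃ c : ℝ, 0 < c ∧
    ∀ (p : unitInterval) (n K : ℕ), pc d ≤ p → 1 ≤ n → K = (4 * d + 7) * 2 ^ d + 1 →
      (∀ z ∈ box (0 : V d) n, c ≤ ∑' x : {x : Fin d → V d // ∑ i, x i = z},
        ∏ i, (P d p).real {ω | x.1 i ∈ cluster ω (box 0 (K * n)) 0}) ∧
      (∀ z x y : V d, x ∈ box z n → y ∈ box z n →
        c / (n : ℝ) ^ (d * (d - 1)) ≤ (P d p).real {ω | y ∈ cluster ω (box z (K * n)) x}) := by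
  have hN : Pool.Agent.Y990.CB.Nd (Pool.Agent.Y990.CB.siteM d) := Pool.Agent.Y990.CB.nd_site
  obtain ⟨c1, hc1, h1⟩ := Run7.h240.CL.convz (Pool.Agent.Y990.CB.siteM d) (by omega) hN
  obtain ⟨c2, hc2, h2⟩ := Run7.h240.CL.conn (Pool.Agent.Y990.CB.siteM d) (by omega) hN
  have hpc : 0 < pc d := by
    rw [pc_eq]
    exact Pool.Agent.Y333.CB.pc_pos d (Pool.Agent.Y990.CB.siteM d) hN
  have hpcR : (0 : ℝ) < pc d := by exact_mod_cast hpc
  rw [← pc_eq] at h1 h2
  refine ⟨min ((pc d : ℝ) ^ d * c1) ((pc d : ℝ) * c2), by positivity, ?_⟩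
  intro p n K hp hn hK
  have hKK : K = Run7.h240.CL.KK d := hK
  rw [hKK]
  constructor
  · intro z hz
    refine (min_le_left _ _).trans ?_
    have g1 := h1 n z hn hz
    set F : {x : Fin d → V d // ∑ i, x i = z} → ℝ := fun x =>
      ∏ i, (P d p).real {ω | x.1 i ∈ cluster ω (box 0 (Run7.h240.CL.KK d * n)) 0} with hF
    have hF0 : ∀ x, 0 ≤ F x := fun x => Finset.prod_nonneg fun i _ => measureReal_nonneg
    have h0 : ∀ R : ℕ, (0 : V d) ∈ box (0 : V d) R := fun R i => by simp
    -- finite support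
    have hsup : (Function.support F).Finite := by
      have hfin : ((↑(Run7.h240.CL.Tz d (Run7.h240.CL.KK d * n) z) :
          Set (Fin d → V d))).Finite := Finset.finite_toSet _
      refine Set.Finite.subset (hfin.preimage (Subtype.val_injective.injOn)) ?_
      intro x hx
      rw [Function.mem_support] at hx
      show x.1 ∈ (↑(Run7.h240.CL.Tz d (Run7.h240.CL.KK d * n) z) : Set (Fin d → V d))
      rw [Finset.mem_coe, Run7.h240.CL.mem_Tz]
      refine ⟨fun i => ?_, x.2⟩
      by_contra hcon
      apply hx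
      rw [hF]
      refine Finset.prod_eq_zero (Finset.mem_univ i) ?_
      have e : {ω : V d → Bool | x.1 i ∈ cluster ω (box 0 (Run7.h240.CL.KK d * n)) 0} = ∅ := by
        ext ω
        simp only [mem_ofPred_eq, mem_empty_iff_false, iff_false]
        intro h
        exact hcon (cluster_subset h)
      rw [e]
      simp
    have hsum : Summable F := summable_of_finite_support hsup
    -- the finite sum
    have e1 : ∑ x ∈ (Run7.h240.CL.Tz d (Run7.h240.CL.KK d * n) z).attach,
        F ⟨x.1, (Run7.h240.CL.mem_Tz.1 x.2).2⟩ ≤ ∑' x, F x := by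
      classical
      have hinj : Set.InjOn (fun x : {x // x ∈ Run7.h240.CL.Tz d (Run7.h240.CL.KK d * n) z} =>
          (⟨x.1, (Run7.h240.CL.mem_Tz.1 x.2).2⟩ : {x : Fin d → V d // ∑ i, x i = z}))
          (↑(Run7.h240.CL.Tz d (Run7.h240.CL.KK d * n) z).attach) := by
        intro a _ b _ h
        have := congrArg Subtype.val h
        exact Subtype.ext this
      rw [← Finset.sum_image (f := F) hinj]
      exact hsum.sum_le_tsum _ fun x _ => hF0 x
    refine le_trans ?_ e1
    have e2 : (pc d : ℝ) ^ d * c1 ≤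
        ∑ x ∈ (Run7.h240.CL.Tz d (Run7.h240.CL.KK d * n) z).attach,
          (pc d : ℝ) ^ d * ∏ i, Pool.Agent.Y232.CB.con (Pool.Agent.Y990.CB.siteM d) (pc d)
            (Pool.Agent.Y990.CB.Bo 0 (Run7.h240.CL.KK d * n)) 0 (x.1 i) := by
      rw [← Finset.mul_sum, Finset.sum_attach (Run7.h240.CL.Tz d (Run7.h240.CL.KK d * n) z)
        (fun x => ∏ i, Pool.Agent.Y232.CB.con (Pool.Agent.Y990.CB.siteM d) (pc d)
            (Pool.Agent.Y990.CB.Bo 0 (Run7.h240.CL.KK d * n)) 0 (x i))]
      exact mul_le_mul_of_nonneg_left g1 (by positivity)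
    refine e2.trans (Finset.sum_le_sum fun x _ => ?_)
    show _ ≤ ∏ i, (P d p).real {ω | x.1 i ∈ cluster ω (box 0 (Run7.h240.CL.KK d * n)) 0}
    have e3 : (pc d : ℝ) ^ d = ∏ _i : Fin d, (pc d : ℝ) := by
      rw [Finset.prod_const, Finset.card_univ, Fintype.card_fin]
    rw [e3, ← Finset.prod_mul_distrib]
    refine Finset.prod_le_prod (fun i _ => mul_nonneg hpcR.le measureReal_nonneg) fun i _ => ?_
    exact two_point hp (h0 _) _
  · intro z x y hx hy
    have g2 := h2 n z x y hn hx hy
    have hx' : x ∈ box z (Run7.h240.CL.KK d * n) := by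
      refine Pool.Agent.Y990.CB.Bo_mono z ?_ hx
      exact Nat.le_mul_of_pos_left n (Nat.succ_pos _)
    refine le_trans ?_ (two_point hp hx' y)
    calc min ((pc d : ℝ) ^ d * c1) ((pc d : ℝ) * c2) / (n : ℝ) ^ (d * (d - 1))
        ≤ ((pc d : ℝ) * c2) / (n : ℝ) ^ (d * (d - 1)) :=
          div_le_div_of_nonneg_right (min_le_right _ _) (by positivity)
      _ = (pc d : ℝ) * (c2 / (n : ℝ) ^ (d * (d - 1))) := by ring
      _ ≤ _ := mul_le_mul_of_nonneg_left g2 hpcR.le

end

end Pool.Agent.Results.MP_e13933_pr.CriticalConvolution
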