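import Pool.Agent.Run7.h981.CJ
import Pool.Agent.Run7.h981.BN

set_option autoImplicit false

open MeasureTheory Set

/-!
Site percolation on `Z^d`, `d ≥ 3`, near the critical point: just below `p_c` few vertices have to
be closed in order to disconnect large boxes, just above `p_c` few vertices have to be opened in
order to connect distant vertices, and at and below `p_c` giant clusters and majority clusters of
boxes are destroyed by closing `o (N ^ (d - 1))` vertices, and have bottlenecks.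
-/

namespace Pool.Agent.Results.MP_e13933_pr.Fragility

open Pool.Agent.Run7.h981.Site Pool.Agent.Run7.h981.BN

noncomputable section

/-- **Fragility near the critical point.**  For every `d ≥ 3`:

* there are `A ≥ 1`, `a > 0` and `C > 0` such that, with `w = 1 + 4 |p - p_c|`, for all `p ≤ p_c`
  and all `t` the `P_p`-probability that it does not suffice to close at most `t` vertices in order
  to disconnect
  - the box of radius `k` from the boundary of the box of radius `n`, inside this box, is at most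
    `C n ^ (1 - 1 / A) w ^ (- (t + 1))`, for all `n ≥ (k + 2) ^ A`;
  - the box of radius `k` from its translate by `v`, inside the box of radius `R n`, where `n` is
    the sup norm of `v`, is at most `10 ^ 14 R w ^ (- (t + 1))`, for all `R ≥ 1` and all `k` with
    `C (k + 1) ^ (2 d ^ 2 + 3 d) R ≤ √n`;
  - the two faces of the box of radius `N` orthogonal to a given axis, inside this box, is at most
    `exp (C N ^ (d - 1 - a)) w ^ (- (t + 1))`, for all `N ≥ 1`;
* (same constants) for all `p ≥ p_c`, all `n ≥ 1`, all `x`, `y` in the box of radius `n` and all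
  `t` the `P_p`-probability that it does not suffice to open at most `t` vertices in order to join
  `x` and `y` inside the box of radius `4 n` is at most `C n ^ (2 d ^ 2) w ^ (- (t + 1))`;
* for all `R ≥ 1` and `0 < ε ≤ 1` there are `c, K > 0` such that for all large `N`, all `p ≤ p_c`
  and all `t`, the `P_p`-probability that it is not possible to close at most `t` vertices in such
  a way that afterwards every open cluster of the box of radius `R N` has at most
  `(θ(p_c) / 2 + ε) (2 N + 1) ^ d` vertices in the box of radius `N`, is at most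
  `K (1 + p_c - p + c / N ^ (d / 2)) ^ (- (t + 1))`;
* for all `R ≥ 1` and `ε > 0` there are `C` and `c, K > 0` such that for all `N ≥ 1` there is `N'`
  with `N ≤ N' ≤ C N` such that for all `p ≤ p_c` and all `t`, the `P_p`-probability that it is not
  possible to close at most `t` vertices in such a way that afterwards every open cluster of the
  box of radius `R N'` has at most `ε (2 N' + 1) ^ d` vertices, is at most
  `K (1 + p_c - p + c / N' ^ (d / 2)) ^ (- (t + 1))`;
* for all `0 < ε ≤ 1` and `δ > 0` there is `K` such that for all large `N` and all `p ≤ p_c`, with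
  `P_p`-probability at least `1 - δ`, every open cluster `C` of the box of radius `N` with at least
  `(θ(p_c) / 2 + ε) (2 N + 1) ^ d` vertices contains a set `B` with
  `(ε / 6) |C| ≤ |B| ≤ (1 - ε / 3) |C|` such that at most `K / (p_c - p + N ^ (- d / 2))` vertices
  of `C` outside `B` have a neighbour in `B`;
* for all `ε > 0` and `δ > 0` there are `C` and `K` such that for all large `N` there is `N'` with
  `N ≤ N' ≤ C N` such that for all `p ≤ p_c`, with `P_p`-probability at least `1 - δ`, every open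
  cluster `C` of the box of radius `N'` with at least `ε (2 N' + 1) ^ d` vertices contains a set
  `B` with `|C| / 4 ≤ |B| ≤ |C| / 2` such that at most `K / (p_c - p + N' ^ (- d / 2))` vertices
  of `C` outside `B` have a neighbour in `B`. -/
theorem result (d : ℕ) (hd : 3 ≤ d) :
    (∃ (A : ℕ) (a C : ℝ), 1 ≤ A ∧ 0 < a ∧ 0 < C ∧
      (∀ p : unitInterval, p ≤ pc d → ∀ t : ℕ,
        (∀ k n : ℕ, (k + 2) ^ A ≤ n →
          (P d p).real {ω | ¬ cuttable ω (box d n) (box d k) (sphere d n) t} ≤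
            C * (n : ℝ) ^ (1 - 1 / A : ℝ) * ((1 + 4 * ((pc d : ℝ) - p)) ^ (t + 1))⁻¹) ∧
        (∀ k R n : ℕ, ∀ v ∈ sphere d n, 1 ≤ R →
          C * ((k : ℝ) + 1) ^ (2 * d ^ 2 + 3 * d) * R ≤ √(n : ℝ) →
          (P d p).real {ω | ¬ cuttable ω (box d (R * n)) (box d k) {x | x - v ∈ box d k} t} ≤
            10 ^ 14 * R * ((1 + 4 * ((pc d : ℝ) - p)) ^ (t + 1))⁻¹) ∧
        (∀ (N : ℕ) (i : Fin d), 1 ≤ N →
          (P d p).real
            {ω | ¬ cuttable ω (box d N) {x | x i = -(N : ℤ)} {x | x i = (N : ℤ)} t} ≤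
            Real.exp (C * (N : ℝ) ^ ((d : ℝ) - 1 - a)) *
              ((1 + 4 * ((pc d : ℝ) - p)) ^ (t + 1))⁻¹)) ∧
      (∀ p : unitInterval, pc d ≤ p → ∀ t n : ℕ, 1 ≤ n → ∀ x ∈ box d n, ∀ y ∈ box d n,
        (P d p).real {ω | ¬ joinable ω (box d (4 * n)) {x} {y} t} ≤
          C * (n : ℝ) ^ (2 * d ^ 2) * ((1 + 4 * ((p : ℝ) - pc d)) ^ (t + 1))⁻¹)) ∧
    (∀ (R : ℕ) (ε : ℝ), 1 ≤ R → 0 < ε → ε ≤ 1 → ∃ (N0 : ℕ) (c K : ℝ), 0 < c ∧ 0 < K ∧
      ∀ N : ℕ, N0 ≤ N → ∀ p : unitInterval, p ≤ pc d → ∀ t : ℕ,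
        (P d p).real {ω | ¬ ∃ F : Finset (V d), F.card ≤ t ∧ ∀ x : V d,
          ((cluster (closing F ω) (box d (R * N)) x ∩ box d N).ncard : ℝ) ≤
            (theta d (pc d) / 2 + ε) * (2 * N + 1) ^ d} ≤
          K * ((1 + ((pc d : ℝ) - p + c / √((N : ℝ) ^ d))) ^ (t + 1))⁻¹) ∧
    (∀ (R : ℕ) (ε : ℝ), 1 ≤ R → 0 < ε → ∃ (C : ℕ) (c K : ℝ), 0 < c ∧ 0 < K ∧
      ∀ N : ℕ, 1 ≤ N → ∃ N' : ℕ, N ≤ N' ∧ N' ≤ C * N ∧
      ∀ p : unitInterval, p ≤ pc d → ∀ t : ℕ,
        (P d p).real {ω | ¬ ∃ F : Finset (V d), F.card ≤ t ∧ ∀ x : V d,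
          ((cluster (closing F ω) (box d (R * N')) x).ncard : ℝ) ≤ ε * (2 * N' + 1) ^ d} ≤
          K * ((1 + ((pc d : ℝ) - p + c / √((N' : ℝ) ^ d))) ^ (t + 1))⁻¹) ∧
    (∀ ε δ : ℝ, 0 < ε → ε ≤ 1 → 0 < δ → ∃ (N0 : ℕ) (K : ℝ), 0 < K ∧
      ∀ N : ℕ, N0 ≤ N → ∀ p : unitInterval, p ≤ pc d →
        1 - δ ≤ (P d p).real (narrow d N (theta d (pc d) / 2 + ε) (ε / 3)
          (K / ((pc d : ℝ) - p + 1 / √((N : ℝ) ^ d))))) ∧
    (∀ ε δ : ℝ, 0 < ε → 0 < δ → ∃ (C N0 : ℕ) (K : ℝ), 0 < K ∧
      ∀ N : ℕ, N0 ≤ N → ∃ N' : ℕ, N ≤ N' ∧ N' ≤ C * N ∧ ∀ p : unitInterval, p ≤ pc d →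
        1 - δ ≤ (P d p).real (narrow d N' ε (1 / 2)
          (K / ((pc d : ℝ) - p + 1 / √((N' : ℝ) ^ d))))) :=
  ⟨Pool.Agent.Run7.h981.CJ.cj d hd, (bn d hd).1, (bn d hd).2.1, (bn d hd).2.2.1,
    (bn d hd).2.2.2⟩

end

end Pool.Agent.Results.MP_e13933_pr.Fragility
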