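import Pool.Agent.Run7.h981.Site
import Pool.Agent.Run7.h981.Low2
import Pool.Agent.Run7.h981.Tau

set_option autoImplicit false

open MeasureTheory Set

/-!
Site percolation on `Z^d`, `d ≥ 3`, at and slightly above the critical point: power laws in
`p - p_c` for the cost of disconnecting a large box, and for the truncated two-point function.
-/

namespace Pool.Agent.Results.MP_e13933_pr.PowerLawsAbove

open Pool.Agent.Run7.h981.Site

noncomputable section

open Pool.Agent.Y990.CB in
lemma nm_sphere {d n : ℕ} {x : V d} (hx : x ∈ sphere d n) : nm x = n := by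
  rw [sphere_eq] at hx
  obtain ⟨i, hi⟩ := hx.2
  have h1 : nm x ≤ n := nm_le.2 (fun j => by
    have := hx.1 j
    rwa [Pi.zero_apply, sub_zero] at this)
  have h2 : |x i| ≤ nm x := abs_le_nm x i
  rw [Pi.zero_apply, sub_zero] at hi
  rw [hi] at h2
  exact le_antisymm h1 (by exact_mod_cast h2)

open Pool.Agent.Y990.CB in
/-- Finite clusters containing a second vertex. -/
lemma two_point {d : ℕ} {ω : V d → Bool} {x : V d} (hx0 : x ≠ 0)
    (h : (cl (siteM d) ω univ 0).Finite ∧ x ∈ cl (siteM d) ω univ 0) :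
    x ∈ cluster ω univ 0 ∧ (cluster ω univ 0).Finite := by
  refine ⟨⟨open_of hx0 h.2, ?_⟩, h.1.subset (cluster_sub ω univ 0)⟩
  rw [graph_eq]
  exact h.2

/-- **Power laws at and slightly above the critical point.**  For every `d ≥ 3` there are `a > 0`,
`η > 0`, `c > 0`, `C` and `D` such that for all `p` with `p_c ≤ p ≤ p_c + η`, with
`δ = p - p_c`:

* for all `N ≥ 1` and all directions `i`, the `P_p`-probability that the box of radius `N` has no
  open crossing in direction `i` is at least `exp (- C (N ^ (d - 1 - a) + δ ^ a N ^ (d - 1)))`;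
* for all `n ≥ 1` and all `x` with sup norm `n`, the `P_p`-probability that `x` is in the open
  cluster of the origin and this cluster is finite is at least `c n ^ (- D) exp (- C δ ^ a n)`;
* for all `n ≥ 1` the `P_p`-probability that no vertex of the box of radius `n` is in an infinite
  open cluster is at least `c n ^ (- D) exp (- C δ ^ a n ^ (d - 1))`. -/
theorem result (d : ℕ) (hd : 3 ≤ d) : ∃ (a η c C : ℝ) (D : ℕ), 0 < a ∧ 0 < η ∧ 0 < c ∧ 0 ≤ C ∧
    ∀ p : unitInterval, pc d ≤ p → (p : ℝ) ≤ pc d + η →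
      (∀ (N : ℕ) (i : Fin d), 1 ≤ N →
        Real.exp (-(C * ((N : ℝ) ^ ((d : ℝ) - 1 - a) +
          ((p : ℝ) - pc d) ^ a * (N : ℝ) ^ (d - 1)))) ≤
        (P d p).real {ω | ¬ joined ω (box d N) {x | x i = -(N : ℤ)} {x | x i = (N : ℤ)}}) ∧
      (∀ n : ℕ, 1 ≤ n → ∀ x ∈ sphere d n,
        c / (n : ℝ) ^ D * Real.exp (-(C * ((p : ℝ) - pc d) ^ a * n)) ≤
        (P d p).real {ω | x ∈ cluster ω univ 0 ∧ (cluster ω univ 0).Finite}) ∧
      (∀ n : ℕ, 1 ≤ n →
        c / (n : ℝ) ^ D * Real.exp (-(C * ((p : ℝ) - pc d) ^ a * (n : ℝ) ^ (d - 1))) ≤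
        (P d p).real {ω | ∀ x ∈ box d n, (cluster ω univ x).Finite}) := by
  obtain ⟨A, c, η, hA, hc, -, hη, h⟩ := Pool.Agent.Run7.h981.hole_above hd
  obtain ⟨C1, η1, hC1, hη1, h1⟩ := Pool.Agent.Run7.h981.cross_low hd hA hc hη h
  obtain ⟨C2, c2, η2, hC2, hc2, hη2, h2⟩ := Pool.Agent.Run7.h981.inf_low hd hA hc hη h
  obtain ⟨D, C3, c3, η3, hC3, hc3, hη3, h3⟩ := Pool.Agent.Run7.h981.tau_low hd hA hc hη h
  set a := Pool.Agent.Run7.h981.ae d A with ha
  have ha0 : 0 < a := Pool.Agent.Run7.h981.ae_pos hA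
  refine ⟨a, min η1 (min η2 η3), min c2 c3, max C1 (max C2 C3), max A D, ha0,
    lt_min hη1 (lt_min hη2 hη3), lt_min hc2 hc3, hC1.trans (le_max_left _ _), ?_⟩
  intro p hp1 hp2
  have hδ : Pool.Agent.Run7.h981.dl d p = (p : ℝ) - pc d := by
    unfold Pool.Agent.Run7.h981.dl
    rw [← pc_eq]
    have : (pc d : ℝ) ≤ p := hp1
    exact max_eq_right (by linarith)
  have hδ0 : 0 ≤ (p : ℝ) - pc d := by
    have : (pc d : ℝ) ≤ p := hp1
    linarith
  have hδη : (p : ℝ) - pc d ≤ min η1 (min η2 η3) := by linarith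
  have hδa : 0 ≤ ((p : ℝ) - pc d) ^ a := Real.rpow_nonneg hδ0 _
  refine ⟨?_, ?_, ?_⟩
  · intro N i hN
    have key := h1 N p i hN (by rw [hδ]; exact hδη.trans (min_le_left _ _))
    rw [hδ] at key
    have hX : 0 ≤ (N : ℝ) ^ ((d : ℝ) - 1 - a) + ((p : ℝ) - pc d) ^ a * (N : ℝ) ^ (d - 1) := by
      positivity
    refine le_trans (Real.exp_le_exp.2 ?_) (key.trans ?_)
    · have := mul_le_mul_of_nonneg_right (le_max_left C1 (max C2 C3)) hX
      linarith
    · rw [P_eq, box_eq]
      refine measureReal_mono ?_ (measure_ne_top _ _)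
      intro ω hω hj
      exact hω (joined_Lk hj)
  · intro n hn x hx
    have hnx := nm_sphere hx
    have hx0 : x ≠ 0 := by
      rintro rfl
      have : Pool.Agent.Y990.CB.nm (0 : V d) = 0 := by
        have := (Pool.Agent.Y990.CB.nm_le (v := (0 : V d)) (n := 0)).2 (by simp)
        omega
      omega
    have key := h3 x p (by omega) (by rw [← pc_eq]; exact hp1)
      (by rw [hδ]; exact hδη.trans ((min_le_right _ _).trans (min_le_right _ _)))
    rw [hδ, hnx] at key
    have hn1 : (1 : ℝ) ≤ n := by exact_mod_cast hn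
    refine le_trans ?_ (key.trans ?_)
    · refine mul_le_mul ?_ (Real.exp_le_exp.2 ?_) (Real.exp_pos _).le (by positivity)
      · exact div_le_div₀ hc3.le (min_le_right _ _) (by positivity)
          (pow_le_pow_right₀ hn1 (le_max_right _ _))
      · have g1 : C3 ≤ max C1 (max C2 C3) := (le_max_right _ _).trans (le_max_right _ _)
        have g2 := mul_le_mul_of_nonneg_right (mul_le_mul_of_nonneg_right g1 hδa)
          (Nat.cast_nonneg n : (0 : ℝ) ≤ n)
        linarith
    · rw [P_eq]
      refine measureReal_mono ?_ (measure_ne_top _ _)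
      intro ω hω
      exact two_point hx0 hω
  · intro n hn
    have key := h2 n p hn
      (by rw [hδ]; exact hδη.trans ((min_le_right _ _).trans (min_le_left _ _)))
    rw [hδ] at key
    have hn1 : (1 : ℝ) ≤ n := by exact_mod_cast hn
    refine le_trans ?_ (key.trans ?_)
    · refine mul_le_mul ?_ (Real.exp_le_exp.2 ?_) (Real.exp_pos _).le (by positivity)
      · exact div_le_div₀ hc2.le (min_le_left _ _) (by positivity)
          (pow_le_pow_right₀ hn1 (le_max_left _ _))
      · have g1 : C2 ≤ max C1 (max C2 C3) := (le_max_left _ _).trans (le_max_right _ _)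
        have g2 := mul_le_mul_of_nonneg_right (mul_le_mul_of_nonneg_right g1 hδa)
          (by positivity : (0 : ℝ) ≤ (n : ℝ) ^ (d - 1))
        linarith
    · rw [P_eq]
      refine measureReal_mono ?_ (measure_ne_top _ _)
      intro ω hω x hx
      by_contra hinf
      exact hω x (by rw [← box_eq]; exact hx) ((infinite_iff ω x).1 hinf)

end

end Pool.Agent.Results.MP_e13933_pr.PowerLawsAbove
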