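import Pool.Agent.Run7.h240.TA.Disc

set_option autoImplicit false

open MeasureTheory Set

/-!
Site percolation on `Z^d`, `d ≥ 2`: two-arm bound at and above the critical point with an exponent
larger than `1 / 2`, for boxes of polynomial size, and disconnection at polynomial scales at and below
the critical point.

The main estimates are in the modules `Pool.Agent.Run7.h240.CL.*` and `Pool.Agent.Run7.h240.TA.*`.
-/

namespace Pool.Agent.Results.MP_e13933_pr.TwoArms

noncomputable section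

/-- Vertices of `Z^d`. -/
abbrev V (d : ℕ) : Type := Fin d → ℤ

/-- The box of radius `N` around `z`. -/
def box {d : ℕ} (z : V d) (N : ℕ) : Set (V d) := {x | ∀ i, |x i - z i| ≤ N}

/-- The frame of the box of radius `N` around `z`. -/
def frame {d : ℕ} (z : V d) (N : ℕ) : Set (V d) := {x | x ∈ box z N ∧ ∃ i, |x i - z i| = N}

/-- The open subgraph inside the region `S`: two vertices at Euclidean distance one are joined if
both are open (`ω x = true`) and in `S`. -/
def openGraph {d : ℕ} (ω : V d → Bool) (S : Set (V d)) : SimpleGraph (V d) where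
  Adj x y := ∑ i, |x i - y i| = 1 ∧ (x ∈ S ∧ ω x = true) ∧ (y ∈ S ∧ ω y = true)
  symm := ⟨fun x y ⟨h1, h2, h3⟩ => ⟨by simpa only [abs_sub_comm] using h1, h3, h2⟩⟩
  loopless := ⟨fun x h => by simpa using h.1⟩

/-- The open cluster of `x` inside the region `S` (empty if `x` is closed). -/
def cluster {d : ℕ} (ω : V d → Bool) (S : Set (V d)) (x : V d) : Set (V d) :=
  {y | (ω x = true ∧ x ∈ S) ∧ (openGraph ω S).Reachable x y}

/-- The two-arm event: two different open clusters of the box of radius `L` around `z` meet both the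
box of radius `n` around `z` and the frame of the box of radius `L`. -/
def TwoArm {d : ℕ} (ω : V d → Bool) (z : V d) (n L : ℕ) : Prop :=
  ∃ x ∈ box z n, ∃ y ∈ box z n, (cluster ω (box z L) x ∩ frame z L).Nonempty ∧
    (cluster ω (box z L) y ∩ frame z L).Nonempty ∧ y ∉ cluster ω (box z L) x

/-- The sets `A` and `B` are connected inside the region `S`: some open cluster inside `S` meets
both of them. -/
def Joined {d : ℕ} (ω : V d → Bool) (S A B : Set (V d)) : Prop :=
  ∃ x ∈ A, (cluster ω S x ∩ B).Nonempty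

/-- Site percolation with parameter `p`: all vertices are open with probability `p`,
independently. -/
def P (d : ℕ) (p : unitInterval) : Measure (V d → Bool) :=
  Measure.infinitePi (fun _ : V d =>
    ENNReal.ofReal (p : ℝ) • Measure.dirac true + ENNReal.ofReal (1 - (p : ℝ)) • Measure.dirac false)

/-- The percolation probability `θ_d(p)`. -/
def theta (d : ℕ) (p : unitInterval) : ℝ := (P d p).real {ω | (cluster ω univ 0).Infinite}

/-- The critical point `p_c(d)`, the supremum of the parameters with `θ_d(p) = 0`. -/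
def pc (d : ℕ) : unitInterval :=
  ⟨sSup {t : ℝ | ∃ q : unitInterval, (q : ℝ) = t ∧ theta d q = 0}, by
    constructor
    · apply Real.sSup_nonneg
      rintro x ⟨q, rfl, _⟩
      exact q.2.1
    · apply Real.sSup_le
      · rintro x ⟨q, rfl, _⟩
        exact q.2.2
      · exact zero_le_one⟩

/-! ### Comparison with the model of the modules -/

lemma nd_mem {d : ℕ} {ω : V d → Bool} {x y : V d} :
    (∀ c ∈ (Pool.Agent.Y990.CB.siteM d).nd x y, ω c = true) ↔ ω x = true ∧ ω y = true := by
  show (∀ c : V d, c ∈ ({x, y} : Finset (V d)) → ω c = true) ↔ _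
  simp only [Finset.mem_insert, Finset.mem_singleton, forall_eq_or_imp, forall_eq]

open Pool.Agent.Y990.CB in
lemma adj_iff {d : ℕ} (ω : V d → Bool) (S : Set (V d)) (x y : V d) :
    (openGraph ω S).Adj x y ↔ (G (siteM d) ω S).Adj x y := by
  show (∑ i, |x i - y i| = 1 ∧ (x ∈ S ∧ ω x = true) ∧ (y ∈ S ∧ ω y = true)) ↔
    (∑ i, |x i - y i| = 1 ∧ x ∈ S ∧ y ∈ S ∧ ∀ c ∈ (siteM d).nd x y, ω c = true)
  rw [nd_mem]
  tauto

open Pool.Agent.Y990.CB in
lemma graph_eq {d : ℕ} (ω : V d → Bool) (S : Set (V d)) :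
    openGraph ω S = G (siteM d) ω S := by
  ext x y
  exact adj_iff ω S x y

open Pool.Agent.Y990.CB in
lemma cluster_sub {d : ℕ} (ω : V d → Bool) (S : Set (V d)) (x : V d) :
    cluster ω S x ⊆ cl (siteM d) ω S x := by
  rintro y ⟨-, h⟩
  rw [graph_eq] at h
  exact h

open Pool.Agent.Y990.CB in
lemma infinite_iff {d : ℕ} (ω : V d → Bool) (x : V d) :
    (cluster ω univ x).Infinite ↔ ω ∈ Perc (siteM d) x := by
  constructor
  · intro h
    exact h.mono (cluster_sub ω univ x)
  · intro h
    have hx : ω x = true := by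
      obtain ⟨y, hy, hyx⟩ := Set.Infinite.exists_notMem_finset h {x}
      have hyx' : y ≠ x := by simpa using hyx
      have hr : (G (siteM d) ω univ).Reachable x y := hy
      obtain ⟨q⟩ := hr
      cases q with
      | nil => exact absurd rfl hyx'
      | cons hadj _ => exact (nd_mem.1 hadj.2.2.2).1
    refine Set.Infinite.mono ?_ h
    intro y hy
    refine ⟨⟨hx, mem_univ x⟩, ?_⟩
    rw [graph_eq]
    exact hy

open Pool.Agent.Y990.CB in
lemma P_eq (d : ℕ) (p : unitInterval) : P d p = mu (siteM d) p := rfl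

open Pool.Agent.Y990.CB in
lemma theta_eq (d : ℕ) (p : unitInterval) : theta d p = th (siteM d) p := by
  unfold theta th
  rw [P_eq]
  congr 1
  ext ω
  exact infinite_iff ω 0

open Pool.Agent.Y990.CB in
lemma pc_eq (d : ℕ) : pc d = Pool.Agent.Y990.CB.pc (siteM d) := by
  apply Subtype.ext
  show sSup {t : ℝ | ∃ q : unitInterval, (q : ℝ) = t ∧ theta d q = 0} =
    sSup {x : ℝ | ∃ q : unitInterval, (q : ℝ) = x ∧ th (siteM d) q = 0}
  simp only [theta_eq]

open Pool.Agent.Y990.CB in
lemma box_eq {d : ℕ} (z : V d) (N : ℕ) : box z N = Bo z N := rfl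

lemma frame_eq {d : ℕ} (z : V d) (N : ℕ) : frame z N = Pool.Agent.Y990.CB.Fr z N := rfl

open Pool.Agent.Y990.CB in
/-- The two-arm event is contained in the event of the modules. -/
lemma twoArm_sub {d : ℕ} {ω : V d → Bool} {z : V d} {n L : ℕ} (h : TwoArm ω z n L) :
    ω ∈ Ta (siteM d) z n L := by
  obtain ⟨x, hx, y, hy, ⟨x', hx1, hx2⟩, ⟨y', hy1, hy2⟩, hxy⟩ := h
  refine ⟨x, hx, y, hy, ⟨x', hx2, cluster_sub ω _ x hx1⟩, ⟨y', hy2, cluster_sub ω _ y hy1⟩, ?_⟩
  intro hr
  apply hxy
  refine ⟨hx1.1, ?_⟩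
  rw [graph_eq]
  exact hr

open Pool.Agent.Y990.CB in
lemma le_nm {d : ℕ} (v : V d) (i : Fin d) : (v i).natAbs ≤ nm v :=
  Finset.le_sup (f := fun i => (v i).natAbs) (Finset.mem_univ i)

open Pool.Agent.Y990.CB in
lemma nm_le {d N : ℕ} {v : V d} (h : v ∈ box 0 N) : nm v ≤ N := by
  refine Finset.sup_le fun i _ => ?_
  have h1 := h i
  simp only [Pi.zero_apply, sub_zero, abs_le] at h1
  show (v i).natAbs ≤ N
  omega

open Pool.Agent.Y990.CB in
lemma le_mul_nm {d N K : ℕ} {v w : V d} (h : ∃ a, (N : ℤ) ≤ K * |v a - w a|) :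
    N ≤ K * nm (v - w) := by
  obtain ⟨a, ha⟩ := h
  have h1 : N ≤ K * (v a - w a).natAbs := by
    have : (N : ℤ) ≤ ((K * (v a - w a).natAbs : ℕ) : ℤ) := by
      push_cast
      exact ha
    exact_mod_cast this
  exact h1.trans (Nat.mul_le_mul_left K (le_nm (v - w) a))

open Pool.Agent.Y990.CB Pool.Agent.W783.PC in
/-- Monotonicity in the parameter. -/
lemma par_mono {d : ℕ} {p q : unitInterval} (h : p ≤ q) {A : Set ((siteM d).ι → Bool)}
    (hA : Inc A) (hm : MeasurableSet A) :
    (mu (siteM d) q).real Aᶜ ≤ (mu (siteM d) p).real Aᶜ := by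
  have h1 : mu (siteM d) p A ≤ mu (siteM d) q A :=
    Pool.Agent.W400.PC.s_mono (siteM d).ι (fun _ => p) (fun _ => q) _ (fun _ => h) hA hm
  have h2 : (mu (siteM d) p).real A ≤ (mu (siteM d) q).real A :=
    ENNReal.toReal_mono (measure_ne_top _ _) h1
  rw [probReal_compl_eq_one_sub hm, probReal_compl_eq_one_sub hm]
  linarith

open Pool.Agent.Y990.CB Pool.Agent.W783.PC in
/-- The event that two of the boxes are connected. -/
lemma Dc_compl {d L k K : ℕ} (x : Fin K → V d) :
    (Dc (siteM d) L k x)ᶜ = ⋃ i, ⋃ j, ⋃ (_ : i ≠ j), Lk (siteM d) (Bo 0 L) (Bo (x i) k) (Bo (x j) k) := by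
  ext ω
  simp only [Dc, mem_compl_iff, mem_ofPred_eq, not_forall, not_not, mem_iUnion]

open Pool.Agent.Y990.CB Pool.Agent.W783.PC in
lemma Dc_par {d L k K : ℕ} (x : Fin K → V d) {p q : unitInterval} (h : p ≤ q) :
    (mu (siteM d) q).real (Dc (siteM d) L k x) ≤ (mu (siteM d) p).real (Dc (siteM d) L k x) := by
  have hm : MeasurableSet (Dc (siteM d) L k x)ᶜ := by
    rw [Dc_compl]
    exact MeasurableSet.iUnion fun i => MeasurableSet.iUnion fun j => MeasurableSet.iUnion fun _ =>
      Lk_meas (siteM d) _ _ _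
  have hi : Inc (Dc (siteM d) L k x)ᶜ := by
    rw [Dc_compl]
    intro ω ω' h1 h2
    simp only [mem_iUnion] at h2 ⊢
    obtain ⟨i, j, hij, h3⟩ := h2
    exact ⟨i, j, hij, Lk_inc (siteM d) _ _ _ ω ω' h1 h3⟩
  have := par_mono h hi hm
  rwa [compl_compl] at this

open Pool.Agent.Y990.CB in
lemma joined_sub {d : ℕ} {ω : V d → Bool} {S A B : Set (V d)} (h : Joined ω S A B) :
    ω ∈ Lk (siteM d) S A B := by
  obtain ⟨x, hx, y, hy, hyB⟩ := h
  exact ⟨x, hx, y, hyB, cluster_sub ω S x hy⟩

/-- **Two arms with an exponent larger than `1 / 2`, and disconnection at polynomial scales.**  For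
every `d ≥ 2` there is `C ≥ 1` such that, with `e = d² + d - 1` and `η = e / (2 d² + d - 1) > 1 / 2`:

* for all `p ≥ p_c` and `1 ≤ n ≤ L` the `P_p`-probability that two different open clusters of the box
  of radius `L` meet both the concentric box of radius `n` and the frame of the box of radius `L` is
  at most `C n ^ e (1 + log L) / L ^ η`;
* for all `p ≤ p_c`: if `C (k + 1) ^ e (1 + log N) K² R ≤ N ^ η` (`R, N ≥ 1`) and `x_1, …, x_K` are
  vertices of the box of radius `N` with mutual sup distances at least `N / K`, then with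
  `P_p`-probability at least `(2 · 10^14 K R) ^ (-K (K - 1) / 2)` no two of the boxes of radius `k`
  around `x_1, …, x_K` are connected inside the box of radius `R N`. -/
theorem result (d : ℕ) (hd : 2 ≤ d) : ∃ C : ℝ, 1 ≤ C ∧
    ∀ (e : ℕ) (η : ℝ) (p : unitInterval), e = d ^ 2 + d - 1 →
      η = ((d : ℝ) ^ 2 + d - 1) / (2 * (d : ℝ) ^ 2 + d - 1) →
    (pc d ≤ p → ∀ (z : V d) (n L : ℕ), 1 ≤ n → n ≤ L →
      (P d p).real {ω | TwoArm ω z n L} ≤
        C * (n : ℝ) ^ e * (1 + Real.log L) / (L : ℝ) ^ η) ∧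
    (p ≤ pc d → ∀ (K R k N : ℕ) (x : Fin K → V d), 1 ≤ R → 1 ≤ N →
      C * ((k : ℝ) + 1) ^ e * (1 + Real.log N) * K ^ 2 * R ≤ (N : ℝ) ^ η →
      (∀ i, x i ∈ box 0 N) → (∀ i j, i ≠ j → ∃ a, (N : ℤ) ≤ K * |x i a - x j a|) →
      (1 / (2 * 10 ^ 14 * (K : ℝ) * R)) ^ (K * (K - 1) / 2) ≤
        (P d p).real {ω | ∀ i j, i ≠ j →
          ¬ Joined ω (box 0 (R * N)) (box (x i) k) (box (x j) k)}) := by
  obtain ⟨C1, hC1, h1⟩ := Run7.h240.TA.final (d := d) (by omega)
  obtain ⟨C2, hC2, h2⟩ := Run7.h240.TA.polyK3 (d := d) hd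
  refine ⟨max C1 C2, le_max_of_le_left hC1, ?_⟩
  intro e η p he hη
  have hη' : η = Run7.h240.TA.eta d := hη
  subst he
  rw [hη']
  constructor
  · intro hp z n L hn hL
    rw [pc_eq] at hp
    have hL0 : (0 : ℝ) < L := by
      have : 0 < L := by omega
      exact_mod_cast this
    have hL1 : (1 : ℝ) ≤ L := by
      have : 1 ≤ L := by omega
      exact_mod_cast this
    have hlog : 0 ≤ Real.log L := Real.log_nonneg hL1
    have g1 : (P d p).real {ω | TwoArm ω z n L} ≤
        (Pool.Agent.Y990.CB.mu (Pool.Agent.Y990.CB.siteM d) p).real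
          (Pool.Agent.Y990.CB.Ta (Pool.Agent.Y990.CB.siteM d) z n L) := by
      rw [P_eq]
      exact measureReal_mono (fun ω hω => twoArm_sub hω) (measure_ne_top _ _)
    refine g1.trans ((Run7.h240.TA.Ta_le p z hL).trans ((h1 p hp L n hn hL).trans ?_))
    rw [Real.rpow_neg hL0.le, ← div_eq_mul_inv, ← mul_div_assoc]
    refine div_le_div_of_nonneg_right ?_ (Real.rpow_nonneg hL0.le _)
    refine mul_le_mul_of_nonneg_right (mul_le_mul_of_nonneg_right (le_max_left _ _)
      (by positivity)) (by linarith)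
  · intro hp K R k N x hR hN hC hx hxx
    have hN1 : (1 : ℝ) ≤ N := by exact_mod_cast hN
    have hlog : 0 ≤ Real.log N := Real.log_nonneg hN1
    have hC' : C2 * ((k : ℝ) + 1) ^ (d ^ 2 + d - 1) * (1 + Real.log N) * K ^ 2 * R ≤
        (N : ℝ) ^ Run7.h240.TA.eta d := by
      refine le_trans ?_ hC
      have := le_max_right C1 C2
      gcongr
    have g := h2 K R k N x hR hN hC' (fun i => nm_le (hx i))
      (fun i j hij => le_mul_nm (hxx i j hij))
    rw [Nat.choose_two_right] at g
    refine g.trans ?_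
    rw [← pc_eq]
    refine (Dc_par x hp).trans ?_
    rw [P_eq]
    refine measureReal_mono ?_ (measure_ne_top _ _)
    intro ω hω i j hij hJ
    exact hω i j hij (joined_sub hJ)

end

end Pool.Agent.Results.MP_e13933_pr.TwoArms
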